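import Pool.Agent.Helper90.QF.St

set_option autoImplicit false

open MvPolynomial

noncomputable section

namespace Pool.Agent.Helper52.QF

open Pool.Agent.Helper90.QF MvPolynomial

/-- Approximations of the solution of a recursion. -/
def apx (G : ℤ → Polynomial ℂ → Polynomial ℂ → Polynomial ℂ) : ℕ → ℤ → Polynomial ℂ
  | 0 => fun _ => 0
  | (n + 1) => fun j => G j (apx G n (j - 2)) (apx G n (j - 4))

theorem apx_zero (G : ℤ → Polynomial ℂ → Polynomial ℂ → Polynomial ℂ) (J : ℤ)
    (hJ : ∀ j < J, G j 0 0 = 0) (n : ℕ) : ∀ j < J, apx G n j = 0 := by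
  induction n with
  | zero => intro j _; rfl
  | succ n ih =>
    intro j hj
    show G j (apx G n (j - 2)) (apx G n (j - 4)) = 0
    rw [ih (j - 2) (by omega), ih (j - 4) (by omega)]
    exact hJ j hj

theorem apx_succ (G : ℤ → Polynomial ℂ → Polynomial ℂ → Polynomial ℂ) (J : ℤ)
    (hJ : ∀ j < J, G j 0 0 = 0) (n : ℕ) : ∀ j < J + n, apx G (n + 1) j = apx G n j := by
  induction n with
  | zero =>
    intro j hj
    rw [apx_zero G J hJ 1 j (by simpa using hj), apx_zero G J hJ 0 j (by simpa using hj)]
  | succ n ih =>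
    intro j hj
    push_cast at hj
    show G j (apx G (n + 1) (j - 2)) (apx G (n + 1) (j - 4)) = G j (apx G n (j - 2)) (apx G n (j - 4))
    rw [ih (j - 2) (by omega), ih (j - 4) (by omega)]

theorem apx_eq (G : ℤ → Polynomial ℂ → Polynomial ℂ → Polynomial ℂ) (J : ℤ)
    (hJ : ∀ j < J, G j 0 0 = 0) (n m : ℕ) (j : ℤ) (hj : j < J + n) (hnm : n ≤ m) :
    apx G m j = apx G n j := by
  induction m, hnm using Nat.le_induction with
  | base => rfl
  | succ m hm ih =>
    rw [apx_succ G J hJ m j (by omega), ih]

theorem rec_exists (G : ℤ → Polynomial ℂ → Polynomial ℂ → Polynomial ℂ) (J : ℤ)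
    (hJ : ∀ j < J, G j 0 0 = 0) :
    ∃ f : ℤ → Polynomial ℂ, (∀ j < J, f j = 0) ∧ ∀ j, f j = G j (f (j - 2)) (f (j - 4)) := by
  refine ⟨fun j => apx G ((j - J).toNat + 1) j, ?_, ?_⟩
  · intro j hj
    exact apx_zero G J hJ _ j hj
  · intro j
    have h1 : apx G ((j - 2 - J).toNat + 1) (j - 2) = apx G ((j - J).toNat + 1) (j - 2) := by
      symm
      apply apx_eq G J hJ
      · push_cast; omega
      · omega
    have h2 : apx G ((j - 4 - J).toNat + 1) (j - 4) = apx G ((j - J).toNat + 1) (j - 4) := by
      symm
      apply apx_eq G J hJ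
      · push_cast; omega
      · omega
    simp only
    rw [h1, h2]
    have h3 : apx G ((j - J).toNat + 1) j = apx G ((j - J).toNat + 2) j := by
      symm
      apply apx_eq G J hJ
      · push_cast; omega
      · omega
    rw [h3]
    rfl

/-- The first order operator with constant coefficients is onto on polynomials. -/
theorem onto (b : ℂ) (ρ : Polynomial ℂ) :
    ∃ p : Polynomial ℂ, Polynomial.derivative p + Polynomial.C b * p = ρ ∧ (ρ = 0 → p = 0) := by
  by_cases hρ : ρ = 0
  · exact ⟨0, by simp [hρ], fun _ => rfl⟩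
  suffices h : ∃ p : Polynomial ℂ, Polynomial.derivative p + Polynomial.C b * p = ρ by
    obtain ⟨p, hp⟩ := h
    exact ⟨p, hp, fun h => absurd h hρ⟩
  clear hρ
  by_cases hb : b = 0
  · subst hb
    induction ρ using Polynomial.induction_on' with
    | add p q hp hq =>
      obtain ⟨p', hp'⟩ := hp
      obtain ⟨q', hq'⟩ := hq
      refine ⟨p' + q', ?_⟩
      rw [← hp', ← hq', Polynomial.derivative_add]
      ring
    | monomial n a =>
      refine ⟨Polynomial.monomial (n + 1) (a / (n + 1)), ?_⟩
      rw [Polynomial.derivative_monomial, map_zero, zero_mul, add_zero]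
      congr 1
      push_cast
      have : (n : ℂ) + 1 ≠ 0 := by exact_mod_cast Nat.succ_ne_zero n
      field_simp
  · have key : ∀ (N : ℕ) (ρ : Polynomial ℂ), ρ.natDegree < N →
        ∃ p : Polynomial ℂ, Polynomial.derivative p + Polynomial.C b * p = ρ := by
      intro N
      induction N with
      | zero => intro ρ h; exact absurd h (Nat.not_lt_zero _)
      | succ N ih =>
        intro ρ h
        by_cases h0 : ρ.natDegree = 0
        · obtain ⟨a, ha⟩ := Polynomial.natDegree_eq_zero.mp h0
          refine ⟨Polynomial.C (a / b), ?_⟩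
          rw [← ha, Polynomial.derivative_C, zero_add, ← Polynomial.C_mul]
          congr 1
          field_simp
        · have h1 : (Polynomial.derivative ρ).natDegree < ρ.natDegree :=
            Polynomial.natDegree_derivative_lt h0
          obtain ⟨q, hq⟩ := ih (Polynomial.derivative ρ) (by omega)
          refine ⟨Polynomial.C (1 / b) * (ρ - q), ?_⟩
          rw [Polynomial.derivative_mul, Polynomial.derivative_C, zero_mul, zero_add,
            Polynomial.derivative_sub]
          have hC : Polynomial.C b * Polynomial.C (1 / b) = (1 : Polynomial ℂ) := by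
            rw [← Polynomial.C_mul, mul_one_div_cancel hb, Polynomial.C_1]
          linear_combination (ρ - q) * hC - Polynomial.C (1 / b) * hq +
            q * hC
    exact key (ρ.natDegree + 1) ρ (Nat.lt_succ_self _)

theorem hSOL (hUBA : StUBA) : StSOL := by
  obtain ⟨hX, hC, hth, -, -, -, -, -, -, hbd, hex, hext, hadd⟩ := hUBA
  refine ⟨?_, ?_⟩
  · intro σ κ k r
    have hf : ∀ c : ℂ, ∃ f : ℤ → Polynomial ℂ, (∃ J : ℤ, ∀ j < J, f j = 0) ∧
        ∀ j : ℤ, 2 * (Polynomial.derivative (f (j + 2)) -
          Polynomial.C (((j + 2 : ℤ) : ℂ) / 2) * f (j + 2) + Polynomial.C c * f (j + 4)) =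
          Polynomial.C σ * f j + Polynomial.C (-(k : ℂ)) * f (j + 2) + Polynomial.C κ * f (j + 4) +
            co r c j := by
      intro c
      obtain ⟨J, hJ⟩ := hbd r c
      by_cases hc : 2 * c = κ
      · choose S hS1 hS2 using onto
        obtain ⟨f, hf0, hf⟩ := rec_exists (fun j x _ =>
          S (((k : ℂ) - j) / 2) (Polynomial.C (1 / 2) * (Polynomial.C σ * x + co r c (j - 2)))) J
          (by
            intro j hj
            apply hS2
            rw [hJ (j - 2) (by omega)]
            simp)
        refine ⟨f, ⟨J, hf0⟩, ?_⟩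
        intro j
        have h1 := hf (j + 2)
        have h2 := hS1 (((k : ℂ) - ((j + 2 : ℤ) : ℂ)) / 2)
          (Polynomial.C (1 / 2) * (Polynomial.C σ * f (j + 2 - 2) + co r c (j + 2 - 2)))
        rw [← h1] at h2
        have e1 : (j + 2 - 2 : ℤ) = j := by ring
        rw [e1] at h2
        have hC2 : (2 : Polynomial ℂ) * Polynomial.C (1 / 2) = 1 := by
          rw [show (2 : Polynomial ℂ) = Polynomial.C 2 from rfl, ← Polynomial.C_mul]
          norm_num
        have hCk : (2 : Polynomial ℂ) * Polynomial.C (((k : ℂ) - ((j + 2 : ℤ) : ℂ)) / 2) =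
            Polynomial.C (k : ℂ) - 2 * Polynomial.C (((j + 2 : ℤ) : ℂ) / 2) := by
          rw [show (2 : Polynomial ℂ) = Polynomial.C 2 from rfl, ← Polynomial.C_mul,
            ← Polynomial.C_mul, ← Polynomial.C_sub]
          congr 1
          ring
        have hCκ : Polynomial.C κ = 2 * Polynomial.C c := by
          rw [← hc, Polynomial.C_mul]; rfl
        have hCn : Polynomial.C (-(k : ℂ)) = - Polynomial.C (k : ℂ) := by
          rw [Polynomial.C_neg]
        rw [hCκ, hCn]
        linear_combination 2 * h2 + (Polynomial.C σ * f j + co r c j) * hC2 - f (j + 2) * hCk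
      · have hd : 2 * c - κ ≠ 0 := sub_ne_zero.mpr hc
        obtain ⟨f, hf0, hf⟩ := rec_exists (fun j x y =>
          Polynomial.C (1 / (2 * c - κ)) * (Polynomial.C σ * y + Polynomial.C (-(k : ℂ)) * x +
            co r c (j - 4) - 2 * (Polynomial.derivative x -
              Polynomial.C (((j - 4 + 2 : ℤ) : ℂ) / 2) * x))) J
          (by
            intro j hj
            rw [hJ (j - 4) (by omega)]
            simp)
        refine ⟨f, ⟨J, hf0⟩, ?_⟩
        intro j
        have h1 := hf (j + 4)
        have e1 : (j + 4 - 4 : ℤ) = j := by ring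
        have e2 : (j + 4 - 2 : ℤ) = j + 2 := by ring
        simp only [e1, e2] at h1
        have hCd : (2 * Polynomial.C c - Polynomial.C κ) * Polynomial.C (1 / (2 * c - κ)) =
            (1 : Polynomial ℂ) := by
          rw [show (2 : Polynomial ℂ) = Polynomial.C 2 from rfl, ← Polynomial.C_mul,
            ← Polynomial.C_sub, ← Polynomial.C_mul, mul_one_div_cancel hd, Polynomial.C_1]
        linear_combination (2 * Polynomial.C c - Polynomial.C κ) * h1 +
          (Polynomial.C σ * f j + Polynomial.C (-(k : ℂ)) * f (j + 2) +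
            co r c j - 2 * (Polynomial.derivative (f (j + 2)) -
              Polynomial.C (((j + 2 : ℤ) : ℂ) / 2) * f (j + 2))) * hCd
    choose f hfJ hf using hf
    obtain ⟨z, hz⟩ := hex f hfJ
    refine ⟨z, ?_⟩
    apply hext
    intro c j
    have hp : (Polynomial.C σ - Polynomial.C (k : ℂ) * Polynomial.X +
        Polynomial.C κ * Polynomial.X ^ 2 : Polynomial ℂ) =
        Polynomial.C σ + Polynomial.C (-(k : ℂ)) * Polynomial.X +
        Polynomial.C κ * (Polynomial.X * Polynomial.X) := by
      rw [Polynomial.C_neg]; ring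
    have h2 : (2 : Polynomial ℂ) = Polynomial.C 2 := rfl
    rw [hp, h2, mul_smul, hC, hX, hth, hadd, add_smul, add_smul, hadd, hadd, hC, mul_smul, hC, hX,
      mul_smul, hC, mul_smul, hX, hX, hz, hz, hz]
    have e3 : (j + 2 + 2 : ℤ) = j + 4 := by ring
    rw [e3]
    have := hf c j
    rw [h2] at this
    exact this
  · intro a
    obtain ⟨z, hz⟩ := hex (fun c j => open Classical in if c = a ∧ j = 0 then 1 else 0)
      (fun c => ⟨0, fun j hj => by
        rw [if_neg]
        rintro ⟨_, h⟩
        omega⟩)
    refine ⟨z, ?_⟩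
    apply hext
    intro c j
    rw [hth, mul_smul, hC, hX, hz, hz]
    by_cases hc : c = a
    · subst hc
      by_cases hj : j = 0
      · subst hj
        simp
      · simp [hj]
    · simp [hc]

end Pool.Agent.Helper52.QF
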